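import Pool.Agent.Helper7.HL.Stmts

/-!
Row BL2 of the project HL: moving a column to the front commutes with the crystal operators.
-/

namespace Pool.Agent.Helper24.HL

open Finset
open Pool.Agent.Helper7.HL

theorem bl2_phi_nil (i : ℕ) : phi i [] = 0 := rfl

theorem bl2_phi_cons (i : ℕ) (c : Finset ℕ) (b : List (Finset ℕ)) :
    phi i (c :: b) = p1 i c + (phi i b - e1 i c) := rfl

theorem bl2_eps_nil (i : ℕ) : eps i [] = 0 := rfl

theorem bl2_eps_cons (i : ℕ) (c : Finset ℕ) (b : List (Finset ℕ)) :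
    eps i (c :: b) = eps i b + (e1 i c - phi i b) := rfl

theorem bl2_fo_cons (i : ℕ) (c : Finset ℕ) (b : List (Finset ℕ)) :
    fo i (c :: b) = if e1 i c < phi i b then c :: fo i b else insert (i + 1) (c.erase i) :: b :=
  rfl

theorem bl2_one (i : ℕ) (c : Finset ℕ) : (p1 i c = 0 ∨ p1 i c = 1) ∧ (e1 i c = 0 ∨ e1 i c = 1) ∧
    (p1 i c = 0 ∨ e1 i c = 0) := by
  unfold p1 e1
  by_cases h1 : i ∈ c <;> by_cases h2 : i + 1 ∈ c <;> simp [h1, h2]

theorem bl2_ar1 (a b c d P : ℕ) : a + (b + (P - c) - d) = a + (b - d) + (P - (c + (d - b))) := by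
  omega

theorem bl2_ar2 (b c d E P : ℕ) : E + (c - P) + (d - (b + (P - c))) = E + (c + (d - b) - P) := by
  omega

theorem bl2_phi_app (i : ℕ) (x y : Finset ℕ) (z : List (Finset ℕ)) :
    phi i (x :: y :: z) = phi i [x, y] + (phi i z - eps i [x, y]) := by
  have h := bl2_ar1 (p1 i x) (p1 i y) (e1 i y) (e1 i x) (phi i z)
  simp only [bl2_phi_cons, bl2_eps_cons, bl2_phi_nil, bl2_eps_nil, Nat.zero_sub, Nat.zero_add,
    Nat.add_zero, Nat.sub_zero] at h ⊢
  exact h

theorem bl2_eps_app (i : ℕ) (x y : Finset ℕ) (z : List (Finset ℕ)) :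
    eps i (x :: y :: z) = eps i z + (eps i [x, y] - phi i z) := by
  have h := bl2_ar2 (p1 i y) (e1 i y) (e1 i x) (eps i z) (phi i z)
  simp only [bl2_phi_cons, bl2_eps_cons, bl2_phi_nil, bl2_eps_nil, Nat.zero_sub, Nat.zero_add,
    Nat.add_zero, Nat.sub_zero] at h ⊢
  exact h

/-- lists with the same first two columns up to `phi`, `eps` -/
theorem bl2_phi_two (i : ℕ) (x y x' y' : Finset ℕ) (z : List (Finset ℕ))
    (h1 : phi i [x', y'] = phi i [x, y]) (h2 : eps i [x', y'] = eps i [x, y]) :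
    phi i (x' :: y' :: z) = phi i (x :: y :: z) ∧ eps i (x' :: y' :: z) = eps i (x :: y :: z) := by
  rw [bl2_phi_app i x' y' z, bl2_phi_app i x y z, bl2_eps_app i x' y' z, bl2_eps_app i x y z,
    h1, h2]
  exact ⟨rfl, rfl⟩

theorem bl2_fo_two (i : ℕ) (x y : Finset ℕ) (z : List (Finset ℕ)) :
    fo i (x :: y :: z) = if eps i [x, y] < phi i z then x :: y :: fo i z else fo i [x, y] ++ z := by
  have he : eps i [x, y] = e1 i y + (e1 i x - p1 i y) := by
    simp [bl2_phi_cons, bl2_phi_nil, bl2_eps_cons, bl2_eps_nil]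
  have hp : phi i [y] = p1 i y := by simp [bl2_phi_cons, bl2_phi_nil]
  have hq : fo i [y] = [insert (i + 1) (y.erase i)] := by
    rw [bl2_fo_cons]; simp [bl2_phi_nil]
  obtain ⟨hx, hx', hx''⟩ := bl2_one i x
  obtain ⟨hy, hy', hy''⟩ := bl2_one i y
  rw [bl2_fo_cons i x, bl2_fo_cons i y z, bl2_phi_cons i y z, bl2_fo_cons i x [y], hp, hq, he]
  generalize phi i z = P
  by_cases h1 : e1 i y + (e1 i x - p1 i y) < P
  · rw [if_pos h1, if_pos (by omega), if_pos (by omega)]
  · rw [if_neg h1]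
    by_cases h2 : e1 i x < p1 i y
    · rw [if_pos h2, if_pos (by omega), if_neg (by omega)]
      rfl
    · rw [if_neg h2, if_neg (by omega)]
      rfl

theorem bl2_mem_cons {N k : ℕ} {cs : List ℕ} {b : List (Finset ℕ)} (hb : b ∈ tl N (k :: cs)) :
    ∃ c b', b = c :: b' ∧ c ⊆ range N ∧ c.card = k ∧ b' ∈ tl N cs := by
  simp only [tl, Finset.mem_image, Finset.mem_product, Finset.mem_powersetCard] at hb
  obtain ⟨p, ⟨⟨h1, h2⟩, h3⟩, h4⟩ := hb
  exact ⟨p.1, p.2, h4.symm, h1, h2, h3⟩

theorem bl2_main (h1 : ST_BW1) (h4 : ST_BW4) (N i : ℕ) (hi : i + 1 < N) :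
    ∀ (r : ℕ) (cs : List ℕ) (b : List (Finset ℕ)), Dec cs → b ∈ tl N cs →
      ∀ hr : r < cs.length, ∃ d b', mv N r b = d :: b' ∧ d ⊆ range N ∧ d.card = cs[r] ∧
        (LL N b)[r]? = some d ∧ phi i (mv N r b) = phi i b ∧ eps i (mv N r b) = eps i b ∧
        (0 < phi i b → mv N r (fo i b) = fo i (mv N r b)) := by
  intro r
  induction r with
  | zero =>
    intro cs b hD hb hr
    cases cs with
    | nil => simp at hr
    | cons k cs =>
      obtain ⟨c, b', rfl, hc, hk, hb'⟩ := bl2_mem_cons hb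
      refine ⟨c, b', rfl, hc, by simpa using hk, ?_, rfl, rfl, fun _ => rfl⟩
      simp [LL]
  | succ r ih =>
    intro cs b hD hb hr
    cases cs with
    | nil => simp at hr
    | cons k cs =>
      obtain ⟨c, b0, rfl, hc, hk, hb0⟩ := bl2_mem_cons hb
      have hD' : Dec cs := (List.pairwise_cons.1 hD).2
      have hr' : r < cs.length := by simpa using hr
      have hle : cs[r] ≤ k := (List.pairwise_cons.1 hD).1 _ (List.getElem_mem hr')
      obtain ⟨d, b', hm, hd, hdc, hL, hp, he, hf⟩ := ih cs b0 hD' hb0 hr'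
      have hdk : d.card ≤ c.card := by omega
      obtain ⟨-, -, hw1, hw2, hw3, hw4⟩ := h1 N c d hc hd hdk
      obtain ⟨hq1, hq2, hq3⟩ := h4 N i c d hi hc hd hdk
      have hmv : mv N (r + 1) (c :: b0) = Rl N c d :: Rr N c d :: b' := by
        simp [mv, hm]
      rw [hm] at hp he hf
      obtain ⟨ht1, ht2⟩ := bl2_phi_two i c d (Rl N c d) (Rr N c d) b' hq1 hq2
      refine ⟨Rl N c d, Rr N c d :: b', hmv, hw3, ?_, ?_, ?_, ?_, ?_⟩
      · simp [hw1, hdc]
      · simp [LL, hL]
      · rw [hmv, ht1, bl2_phi_cons, hp, bl2_phi_cons]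
      · rw [hmv, ht2, bl2_eps_cons, he, hp, bl2_eps_cons]
      · intro hpos
        rw [hmv, bl2_fo_two, hq2, bl2_fo_cons]
        obtain ⟨hx, hx', hx''⟩ := bl2_one i c
        obtain ⟨hy, hy', hy''⟩ := bl2_one i d
        have hpc := bl2_phi_cons i c b0
        have hpd := bl2_phi_cons i d b'
        have hed := bl2_eps_cons i d b'
        have hcd : phi i [c, d] = p1 i c + (p1 i d - e1 i c) := by
          simp [bl2_phi_cons, bl2_phi_nil]
        have hcd' : eps i [c, d] = e1 i d + (e1 i c - p1 i d) := by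
          simp [bl2_phi_cons, bl2_phi_nil, bl2_eps_cons, bl2_eps_nil]
        have hpd1 : phi i [d] = p1 i d := by simp [bl2_phi_cons, bl2_phi_nil]
        have hfcd : fo i [c, d] = if e1 i c < p1 i d then [c, insert (i + 1) (d.erase i)]
            else [insert (i + 1) (c.erase i), d] := by
          rw [bl2_fo_cons, hpd1, bl2_fo_cons]
          simp [bl2_phi_nil]
        by_cases hA : e1 i c < phi i b0
        · rw [if_pos hA]
          have hb0p : 0 < phi i b0 := by omega
          have hfb := hf hb0p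
          rw [bl2_fo_cons] at hfb
          by_cases hA1 : e1 i d < phi i b'
          · rw [if_pos hA1] at hfb
            rw [if_pos (by omega)]
            simp [mv, hfb]
          · rw [if_neg hA1] at hfb
            have hd1 : p1 i d = 1 := by omega
            have hc0 : e1 i c = 0 := by omega
            have hd0 : e1 i d = 0 := by omega
            have hb'0 : phi i b' = 0 := by omega
            rw [if_neg (by omega)]
            rw [if_pos (by omega)] at hfcd
            obtain ⟨hz1, -⟩ := hq3 (by omega) _ _ hfcd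
            rw [← hz1]
            simp [mv, hfb]
        · rw [if_neg hA]
          have hc1 : p1 i c = 1 := by omega
          have hc0 : e1 i c = 0 := by omega
          have hb00 : phi i b0 = 0 := by omega
          have hd1 : p1 i d = 0 := by omega
          rw [if_neg (by omega)]
          rw [if_neg (by omega)] at hfcd
          obtain ⟨hz1, -⟩ := hq3 (by omega) _ _ hfcd
          rw [← hz1]
          simp [mv, hm]

theorem st_BL2 (h1 : ST_BW1) (h4 : ST_BW4) (h5 : ST_BL1) : ST_BL2 := by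
  intro N i r cs b hi hD hb hr
  obtain ⟨d, b', hm, -, -, hL, hp, he, hf⟩ := bl2_main h1 h4 N i hi r cs b hD hb hr
  refine ⟨?_, hp, he, hf, ?_⟩
  · rw [hm, hL]; rfl
  · intro hpos
    obtain ⟨-, -, h3⟩ := h5 i b
    obtain ⟨ha, hb1, -, -, -, -, hc⟩ := h3 hpos
    have hmem := hc N cs hi hb
    obtain ⟨d2, b2, hm2, -, -, -, hp2, he2, hf2⟩ :=
      bl2_main h1 h4 N i hi r cs (eo i b) hD hmem hr
    have hpos2 : 0 < phi i (eo i b) := by omega
    have h := hf2 hpos2
    rw [ha] at h
    rw [h]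
    have hpos3 : 0 < phi i (mv N r (eo i b)) := by omega
    obtain ⟨-, h6, -⟩ := h5 i (mv N r (eo i b))
    exact (h6 hpos3).1.symm

end Pool.Agent.Helper24.HL
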